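import Pool.Agent.N551.TN.Unc

/-!
# MP_52f683_gt: discrete sequences in thin spaces

A topological space `S` is thin if any two homeomorphic subsets of `S` are mapped onto each other
by a homeomorphism of `S` onto itself. No separation axiom is assumed.

Every infinite thin space contains a discrete sequence; no discrete sequence converges, and the set
of the accumulation points of a discrete sequence is empty or uncountable. In particular a
countable compact thin space is finite.
-/

set_option autoImplicit false

open Set Topology Filter Function

universe u

namespace Pool.Agent.Results.MP_52f683_gt.DiscreteSequences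

/-- Any two homeomorphic subsets are exchanged by a homeomorphism of the whole space. -/
def Thin (S : Type u) [TopologicalSpace S] : Prop :=
  ∀ A B : Set S, Nonempty (A ≃ₜ B) → ∃ h : S ≃ₜ S, ⇑h '' A = B

/-- every point of the sequence has a neighbourhood which contains no other point of it -/
def Discrete {S : Type u} [TopologicalSpace S] (w : ℕ → S) : Prop :=
  ∀ n, ∃ U ∈ 𝓝 (w n), ∀ m, m ≠ n → w m ∉ U

/-- the accumulation points of a sequence -/
def Accumulation {S : Type u} [TopologicalSpace S] (w : ℕ → S) : Set S :=
  {y | ∀ U ∈ 𝓝 y, {n | w n ∈ U}.Infinite}

/-- **Discrete sequences in infinite thin spaces exist, do not converge, and have no accumulation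
points or uncountably many.** -/
theorem result (S : Type u) [TopologicalSpace S] (hS : Thin S) :
    (Infinite S → (∃ w : ℕ → S, Discrete w) ∧ ∀ w : ℕ → S, Discrete w →
      (∀ y, ¬ Tendsto w atTop (𝓝 y)) ∧ (Accumulation w = ∅ ∨ ¬ (Accumulation w).Countable)) ∧
    (Countable S → CompactSpace S → Finite S) := by
  refine ⟨fun h => ?_, fun h1 h2 => N551.TN.cpt hS⟩
  refine ⟨N551.TN.exists_seq hS, fun w hw => ⟨fun y => N551.TN.no_limit hS w hw y, ?_⟩⟩
  by_cases hc : (Accumulation w).Countable
  · left
    rw [eq_empty_iff_forall_notMem]
    intro y hy
    obtain ⟨U, hU, hf⟩ := N551.TN.acc_seq hS w hw hc y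
    exact hy U hU hf
  · exact Or.inr hc

end Pool.Agent.Results.MP_52f683_gt.DiscreteSequences
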