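import Pool.Agent.N551.TN.Unc

/-!
# MP_52f683_gt: thin spaces with convergent sequences are finite

A topological space `S` is thin if any two homeomorphic subsets of `S` are mapped onto each other
by a homeomorphism of `S` onto itself. No separation axiom is assumed.

A thin space in which every set with an accumulation point contains a convergent sequence of
distinct points is finite. In particular sequential thin spaces and sequentially compact thin
spaces are finite.
-/

set_option autoImplicit false

open Set Topology Filter Function

universe u

namespace Pool.Agent.Results.MP_52f683_gt.EnoughSequences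

/-- Any two homeomorphic subsets are exchanged by a homeomorphism of the whole space. -/
def Thin (S : Type u) [TopologicalSpace S] : Prop :=
  ∀ A B : Set S, Nonempty (A ≃ₜ B) → ∃ h : S ≃ₜ S, ⇑h '' A = B

/-- **A thin space is finite if every set with an accumulation point contains a convergent sequence
of distinct points, if it is sequential, or if it is sequentially compact.** -/
theorem result (S : Type u) [TopologicalSpace S] (hS : Thin S) :
    ((∀ (A : Set S) (x : S), (∀ U ∈ 𝓝 x, (U ∩ A).Infinite) →
      ∃ u : ℕ → S, Injective u ∧ (∀ n, u n ∈ A) ∧ ∃ y, Tendsto u atTop (𝓝 y)) → Finite S) ∧
    (SequentialSpace S → Finite S) ∧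
    (SeqCompactSpace S → Finite S) := by
  refine ⟨fun h => N551.TN.enough hS h, fun h => ?_, fun h => ?_⟩
  · exact N551.TN.sequential hS
  · exact N551.TN.seqCompact hS

end Pool.Agent.Results.MP_52f683_gt.EnoughSequences
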